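import Mathlib
import Pool.Agent.Helper18.UW.GoalsP

/-!
# Project UW, packet RL: renumbering
-/

set_option autoImplicit false

namespace Pool.Agent.Helper55.UW

open Finset
open Pool.Agent.Lead.Sh
open Pool.Agent.Helper18.EW
open Pool.Agent.Helper18.UW

/-- transfer of `Ind` and `Inj` along a renumbering -/
theorem rx_gen {D : Finset (ℕ × ℕ)} {m m' : ℕ → ℕ} {s t : Finset ℕ} {f g : ℕ → ℕ}
    (hf : ∀ k ∈ s, f k ∈ t ∧ g (f k) = k ∧ m' (f k) = m k)
    (hg : ∀ k ∈ t, g k ∈ s ∧ f (g k) = k) :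
    (Inj D (rows m s) → Inj D (rows m' t)) ∧ (Ind D (rows m s) → Ind D (rows m' t)) := by
  have hg' : ∀ k ∈ t, m (g k) = m' k := by
    intro k hk
    have h1 := (hf (g k) (hg k hk).1).2.2
    rw [(hg k hk).2] at h1
    exact h1.symm
  constructor
  · rintro ⟨P, hP⟩
    refine ⟨fun k => P (g k), ?_⟩
    intro c hc d hd
    apply hP c _ d hd
    intro r hr
    rw [mem_rows] at hr
    have key := hc (f r.1, r.2) (by
      rw [mem_rows]
      refine ⟨(hf r.1 hr.1).1, ?_⟩
      simp only [(hf r.1 hr.1).2.2]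
      exact hr.2)
    simp only [(hf r.1 hr.1).2.1] at key
    exact key
  · rintro ⟨P, hP⟩
    refine ⟨fun k => P (g k), ?_⟩
    intro l hl r hr
    rw [mem_rows] at hr
    have hgr : (g r.1, r.2) ∈ rows m s := by
      rw [mem_rows]
      refine ⟨(hg r.1 hr.1).1, ?_⟩
      simp only [hg' r.1 hr.1]
      exact hr.2
    have key := hP (fun r => l (f r.1, r.2)) ?_ (g r.1, r.2) hgr
    · simp only at key
      rw [(hg r.1 hr.1).2] at key
      exact key
    · intro d hd
      refine Eq.trans ?_ (hl d hd)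
      refine sum_nbij' (fun r => (f r.1, r.2)) (fun r => (g r.1, r.2)) ?_ ?_ ?_ ?_ ?_
      · intro r hr
        rw [mem_rows] at hr ⊢
        refine ⟨(hf r.1 hr.1).1, ?_⟩
        simp only [(hf r.1 hr.1).2.2]
        exact hr.2
      · intro r hr
        rw [mem_rows] at hr ⊢
        refine ⟨(hg r.1 hr.1).1, ?_⟩
        simp only [hg' r.1 hr.1]
        exact hr.2
      · intro r hr
        rw [mem_rows] at hr
        simp only [(hf r.1 hr.1).2.1]
      · intro r hr
        rw [mem_rows] at hr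
        simp only [(hg r.1 hr.1).2]
      · intro r hr
        rw [mem_rows] at hr
        simp only [(hf r.1 hr.1).2.1]

/-- an enumeration of a finite set of numbers along which `m` increases -/
theorem exists_enum (m : ℕ → ℕ) (s : Finset ℕ) : ∃ f g : ℕ → ℕ,
    (∀ c < s.card, f c ∈ s ∧ g (f c) = c) ∧ (∀ k ∈ s, g k < s.card ∧ f (g k) = k) ∧
    (∀ c c', c ≤ c' → c' < s.card → m (f c) ≤ m (f c')) := by
  classical
  set r : ℕ → ℕ → Prop := fun a b => m a ≤ m b with hr
  have : DecidableRel r := fun a b => inferInstanceAs (Decidable (m a ≤ m b))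
  have : Std.Total r := ⟨fun a b => le_total (m a) (m b)⟩
  have : IsTrans ℕ r := ⟨fun a b c h1 h2 => le_trans h1 h2⟩
  set L := s.toList.insertionSort r with hL
  have hlen : L.length = s.card := by
    rw [hL, List.length_insertionSort, Finset.length_toList]
  have hnd : L.Nodup := (List.perm_insertionSort r s.toList).nodup_iff.2 s.nodup_toList
  have hmem : ∀ k, k ∈ L ↔ k ∈ s := by
    intro k
    rw [hL, List.mem_insertionSort, Finset.mem_toList]
  have hpw : L.Pairwise r := List.pairwise_insertionSort r s.toList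
  refine ⟨fun c => L.getD c 0, fun k => L.idxOf k, ?_, ?_, ?_⟩
  · intro c hc
    have hc' : c < L.length := by omega
    simp only [List.getD_eq_getElem _ _ hc']
    exact ⟨(hmem _).1 (List.getElem_mem hc'), hnd.idxOf_getElem c hc'⟩
  · intro k hk
    have h1 : L.idxOf k < L.length := List.idxOf_lt_length_iff.2 ((hmem k).2 hk)
    refine ⟨lt_of_lt_of_eq h1 hlen, ?_⟩
    simp only [List.getD_eq_getElem _ _ h1]
    exact List.getElem_idxOf h1
  · intro c c' hcc hc'
    have h1 : c' < L.length := by omega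
    have h2 : c < L.length := by omega
    simp only [List.getD_eq_getElem _ _ h1, List.getD_eq_getElem _ _ h2]
    rcases Nat.eq_or_lt_of_le hcc with h | h
    · subst h
      exact le_rfl
    · exact List.pairwise_iff_getElem.1 hpw c c' h2 h1 h

/-- **Packet RL.** -/
theorem goalRL : GoalRL := by
  classical
  intro A Cl m K hCl hK
  obtain ⟨f1, g1, hf1, hg1, -⟩ := exists_enum m (A \ Cl)
  obtain ⟨f2, g2, hf2, hg2, hmo⟩ := exists_enum m Cl
  set N0 := (A \ Cl).card with hN0
  set n1 := Cl.card with hn1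
  have hN0A : N0 + n1 = A.card := by
    rw [hN0, hn1]
    exact card_sdiff_add_card_eq_card hCl
  set σ : ℕ → ℕ := fun c => if c < N0 then f1 c else f2 (c - N0) with hσ
  set ρ : ℕ → ℕ := fun k => if k ∈ Cl then N0 + g2 k else g1 k with hρ
  have hσ1 : ∀ c < N0, σ c ∈ A \ Cl ∧ ρ (σ c) = c := by
    intro c hc
    have h1 := hf1 c hc
    simp only [hσ, if_pos hc]
    refine ⟨h1.1, ?_⟩
    have h2 : f1 c ∉ Cl := (mem_sdiff.1 h1.1).2
    simp only [hρ, if_neg h2]
    exact h1.2
  have hσ2 : ∀ c, N0 ≤ c → c < N0 + n1 → σ c ∈ Cl ∧ ρ (σ c) = c := by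
    intro c hc hc'
    have h1 := hf2 (c - N0) (by omega)
    have h3 : ¬ c < N0 := by omega
    simp only [hσ, if_neg h3]
    refine ⟨h1.1, ?_⟩
    simp only [hρ, if_pos h1.1]
    rw [h1.2]
    omega
  have hσA : ∀ c < N0 + n1, σ c ∈ A ∧ ρ (σ c) = c := by
    intro c hc
    by_cases h : c < N0
    · exact ⟨(mem_sdiff.1 (hσ1 c h).1).1, (hσ1 c h).2⟩
    · exact ⟨hCl (hσ2 c (by omega) hc).1, (hσ2 c (by omega) hc).2⟩
  have hρA : ∀ k ∈ A, ρ k < N0 + n1 ∧ σ (ρ k) = k := by
    intro k hk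
    by_cases h : k ∈ Cl
    · have h1 := hg2 k h
      have h2 : ¬ N0 + g2 k < N0 := by omega
      simp only [hρ, if_pos h, hσ, if_neg h2]
      refine ⟨by omega, ?_⟩
      rw [show N0 + g2 k - N0 = g2 k by omega]
      exact h1.2
    · have h1 := hg1 k (mem_sdiff.2 ⟨hk, h⟩)
      simp only [hρ, if_neg h, hσ, if_pos h1.1]
      exact ⟨by omega, h1.2⟩
  have hρ1 : ∀ k ∈ A \ Cl, ρ k < N0 ∧ σ (ρ k) = k := by
    intro k hk
    have h1 := hg1 k hk
    have h := (mem_sdiff.1 hk).2
    simp only [hρ, if_neg h, hσ, if_pos h1.1]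
    exact ⟨h1.1, h1.2⟩
  have hNK : N0 + (n1 - K) + K = N0 + n1 := by omega
  have hmu : ∀ c, mu (fun c => m (σ c)) (fun i => m (σ (N0 + (n1 - K) + i))) (N0 + (n1 - K)) c =
      m (σ c) := by
    intro c
    unfold mu
    split_ifs with h
    · rfl
    · show m (σ (N0 + (n1 - K) + (c - (N0 + (n1 - K))))) = m (σ c)
      rw [show N0 + (n1 - K) + (c - (N0 + (n1 - K))) = c by omega]
  refine ⟨fun c => m (σ c), fun i => m (σ (N0 + (n1 - K) + i)), N0, N0 + (n1 - K), by omega,
    ?_, ?_, ?_, ?_, ?_, ?_, ?_⟩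
  · intro c hc
    exact ⟨σ c, (mem_sdiff.1 (hσ1 c hc).1).1, rfl⟩
  · intro c hc hc'
    exact ⟨σ c, (hσ2 c hc (by omega)).1, rfl⟩
  · intro i hi
    exact ⟨σ (N0 + (n1 - K) + i), (hσ2 _ (by omega) (by omega)).1, rfl⟩
  · intro c c' h1 h2 h3
    have h4 : ¬ c < N0 := by omega
    have h5 : ¬ c' < N0 := by omega
    simp only [hσ, if_neg h4, if_neg h5]
    exact hmo (c - N0) (c' - N0) (by omega) (by omega)
  · rw [← sum_sdiff hCl]
    congr 1
    refine sum_nbij' σ ρ ?_ ?_ ?_ ?_ ?_
    · intro c hc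
      exact (hσ1 c (mem_range.1 hc)).1
    · intro k hk
      exact mem_range.2 (hρ1 k hk).1
    · intro c hc
      exact (hσ1 c (mem_range.1 hc)).2
    · intro k hk
      exact (hρ1 k hk).2
    · intro c _
      rfl
  · have h1 : ∑ c ∈ range (N0 + (n1 - K)), (m (σ c) + 1).choose 2 +
        ∑ i ∈ range K, (m (σ (N0 + (n1 - K) + i)) + 1).choose 2 =
        ∑ c ∈ range (N0 + n1), (m (σ c) + 1).choose 2 := by
      rw [← hNK]
      exact (sum_range_add (fun c => (m (σ c) + 1).choose 2) _ _).symm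
    rw [h1]
    refine sum_nbij' σ ρ ?_ ?_ ?_ ?_ ?_
    · intro c hc
      exact (hσA c (mem_range.1 hc)).1
    · intro k hk
      exact mem_range.2 (hρA k hk).1
    · intro c hc
      exact (hσA c (mem_range.1 hc)).2
    · intro k hk
      exact (hρA k hk).2
    · intro c _
      rfl
  · intro D
    refine rx_gen (f := σ) (g := ρ) ?_ ?_
    · intro c hc
      have hc' : c < N0 + n1 := by
        have := mem_range.1 hc
        omega
      exact ⟨(hσA c hc').1, (hσA c hc').2, (hmu c).symm⟩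
    · intro k hk
      refine ⟨mem_range.2 ?_, (hρA k hk).2⟩
      have := (hρA k hk).1
      omega

end Pool.Agent.Helper55.UW
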