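import Mathlib
import Pool.Agent.Helper18.UW.GoalsG

/-!
# Project UW, packet Xf: from the stopped play to the final play
-/

set_option autoImplicit false

namespace Pool.Agent.Helper55.UW

open Finset
open Pool.Agent.Helper43.Hw (T na va lz Play aa ac sc oo sk U Dd Sd Pn nx bb np)
open Pool.Agent.Helper43.Gm (Pri st mv nn)
open Pool.Agent.Helper18.UW

theorem play_mono {μ R N : ℕ} {κ x : ℕ → ℕ} (h : Play μ R N κ x) {a b : ℕ} (hab : a ≤ b)
    (hb : b < R) : κ a ≤ κ b := by
  induction b, hab using Nat.le_induction with
  | base => exact le_rfl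
  | succ n hn ih => exact le_trans (ih (by omega)) (h.mono n hb)

theorem aa_mono {μ R N : ℕ} {κ x : ℕ → ℕ} (h : Play μ R N κ x) {a b : ℕ} (hab : a ≤ b)
    (hb : b < R) : aa κ x a ≤ aa κ x b := by
  induction b, hab using Nat.le_induction with
  | base => exact le_rfl
  | succ n hn ih =>
    refine le_trans (ih (by omega)) ?_
    have h1 := h.mono n hb
    have h2 := h.inc n hb
    unfold aa
    by_cases h3 : κ (n + 1) = κ n
    · by_cases h4 : 0 < x n
      · have h5 := h2 h4 h3
        rw [if_pos h4, if_pos (by omega)]
        omega
      · rw [if_neg h4]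
        split_ifs <;> omega
    · split_ifs <;> omega

/-- **Packet Xf.** -/
theorem goalXf : GoalXf := by
  intro μ R N τ s κ2 x2 κ x hμ hR hP2 hP hτ hτJ hJs hsR hpa hag
  constructor
  · intro y hsy hyR
    have hg : κ2 y = κ2 τ := (hpa y (by omega) hyR).1
    have hkτ : κ τ = κ2 τ := (hag τ (by omega)).1
    have hge : ∀ y', τ ≤ y' → y' < R → κ2 τ ≤ κ y' := by
      intro y' h1 h2
      rw [← hkτ]
      exact play_mono hP h1 h2
    have hge2 : ∀ y', τ ≤ y' → y' < R → κ2 y' = κ2 τ := fun y' h1 h2 => (hpa y' h1 h2).1
    have hva : ∀ c < κ2 τ, va μ R κ2 x2 c y = va μ R κ x c y := by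
      intro c hc
      have h1 := hge y (by omega) hyR
      have hst : st κ2 c y = st κ c y := by
        unfold st
        congr 1
        refine filter_congr fun y' hy' => ?_
        have hy'' := mem_range.1 hy'
        by_cases h : y' < s
        · rw [(hag y' h).1]
        · have h3 := hge y' (by omega) (by omega)
          have h4 := hge2 y' (by omega) (by omega)
          constructor <;> intro h5 <;> omega
      have hmv : mv κ2 x2 (fun _ => μ) c y = mv κ x (fun _ => μ) c y := by
        unfold mv
        refine filter_congr fun y' hy' => ?_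
        have hy'' := mem_range.1 hy'
        by_cases h : y' < s
        · rw [(hag y' h).1, (hag y' h).2]
        · have h3 := hge y' (by omega) (by omega)
          have h4 := hge2 y' (by omega) (by omega)
          constructor <;> rintro ⟨h5, -⟩ <;> omega
      unfold va nn
      rw [if_neg (by omega), if_neg (by omega), if_neg (by omega), if_neg (by omega),
        if_neg (by omega), if_neg (by omega), hst, hmv]
    have hac : ∀ c < κ2 τ, ac R κ2 x2 c = ac R κ x c := by
      intro c hc
      unfold ac
      congr 1
      refine filter_congr fun y' hy' => ?_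
      have hy'' := mem_range.1 hy'
      unfold aa
      by_cases h : y' < s
      · rw [(hag y' h).1, (hag y' h).2]
      · have h3 := hge y' (by omega) (by omega)
        have h4 := hge2 y' (by omega) (by omega)
        constructor <;> intro h5 <;> omega
    unfold Dd
    rw [hg]
    calc ∑ c ∈ (range (κ2 τ)).filter (fun c => 0 < va μ R κ2 x2 c y),
          T (R - 1 - μ - ac R κ2 x2 c)
        = ∑ c ∈ (range (κ2 τ)).filter (fun c => 0 < va μ R κ x c y),
          T (R - 1 - μ - ac R κ x c) := by
          refine sum_congr (filter_congr fun c hc => ?_) fun c hc => ?_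
          · rw [hva c (mem_range.1 hc)]
          · rw [hac c (mem_range.1 (mem_filter.1 hc).1)]
      _ ≤ _ := by
          refine sum_le_sum_of_subset (filter_subset_filter _ ?_)
          exact range_subset_range.2 (hge y (by omega) hyR)
  · intro X
    unfold np
    refine card_le_card fun c hc => ?_
    rw [mem_filter] at hc ⊢
    obtain ⟨hcN, h1, h2⟩ := hc
    have hJ : c < aa κ x (R - 1 - μ) := by
      by_contra hcon
      push Not at hcon
      have h3 : range (R - 1 - μ + 1) ⊆ (range R).filter (fun y => aa κ x y ≤ c) := by
        intro y' hy'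
        have hy'' := mem_range.1 hy'
        rw [mem_filter, mem_range]
        exact ⟨by omega, le_trans (aa_mono hP (by omega) (by omega)) hcon⟩
      have h4 := card_le_card h3
      rw [card_range] at h4
      unfold ac at h2
      omega
    have hJ2 : c < aa κ2 x2 (R - 1 - μ) := by
      have h3 := hag (R - 1 - μ) (by omega)
      unfold aa at hJ ⊢
      rw [← h3.1, ← h3.2]
      exact hJ
    have hac : ac R κ2 x2 c = ac R κ x c := by
      unfold ac
      congr 1
      refine filter_congr fun y' hy' => ?_
      have hy'' := mem_range.1 hy'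
      by_cases h : y' < s
      · unfold aa
        rw [(hag y' h).1, (hag y' h).2]
      · have h3 := aa_mono hP (show R - 1 - μ ≤ y' by omega) hy''
        have h4 := aa_mono hP2 (show R - 1 - μ ≤ y' by omega) hy''
        constructor <;> intro h5 <;> omega
    rw [hac]
    exact ⟨hcN, h1, h2⟩

end Pool.Agent.Helper55.UW
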